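import Pool.Agent.U457.PA.Run

set_option autoImplicit false

/-! # Probabilistic automata which predict a sequence: many failures of a period -/

namespace Pool.Agent.U457.PA

open Finset Filter
open scoped ENNReal

variable {Q : ℕ} {α : Type} [DecidableEq α]

/-- A word around a failure of the relation `w k = w (k + p)`, where `p` is a common multiple of
the numbers up to `Q`, costs an error with probability one half. -/
lemma window_bad (R : Predictor Q α) (w : ℕ → α) (p : ℕ)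
    (hp : ∀ δ, 1 ≤ δ → δ ≤ Q → δ ∣ p) (z : ℕ) (hz : w (z + Q) ≠ w (z + (Q + p))) (q : Fin Q) :
    Ok R (Q + p + 1) (fun i => w (z + i)) q ≤ 2⁻¹ := by
  refine Ok_window R _ _ (fun t t' hlt hle => ?_) q
  by_contra hcon
  push Not at hcon
  obtain ⟨m, hm⟩ := hp (t' - t) (by omega) (by omega)
  have h1 : ∀ j, j ≤ m → w (z + (Q + (t' - t) * j)) = w (z + Q) := by
    intro j
    induction j with
    | zero => intro _; rw [Nat.mul_zero, Nat.add_zero]
    | succ j ih =>
      intro hj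
      rw [← ih (by omega)]
      have h2 : (t' - t) * (j + 1) ≤ p := by
        rw [hm]
        exact Nat.mul_le_mul_left _ hj
      have h3 : (t' - t) * (j + 1) = (t' - t) * j + (t' - t) := by ring
      have h4 := hcon (Q - t + (t' - t) * j) (by omega)
      have h5 : t + (Q - t + (t' - t) * j) = Q + (t' - t) * j := by omega
      have h6 : t' + (Q - t + (t' - t) * j) = Q + (t' - t) * (j + 1) := by omega
      rw [h5, h6] at h4
      exact h4.symm
  refine hz ?_
  rw [hm]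
  exact (h1 m le_rfl).symm

open Classical in
/-- The number of errors of a probabilistic predictor, from the failures of one period. -/
theorem errors (R : Predictor Q α) (w : ℕ → α) (p : ℕ)
    (hp : ∀ δ, 1 ≤ δ → δ ≤ Q → δ ∣ p) (q0 : Fin Q) (N : ℕ) (y : ℝ)
    (hy : 9 * ((Q + p + 1 : ℕ) : ℝ) * y ≤
      ((#{z ∈ range N | z + (Q + p + 1) ≤ N ∧ w (z + Q) ≠ w (z + (Q + p))} : ℕ) : ℝ)) :
    (run R w q0 N).toOuterMeasure {s | (s.2 : ℝ) < y} ≤ ENNReal.ofReal (Real.exp (-y)) := by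
  set M : ℕ := Q + p + 1 with hM
  set S : Finset ℕ := {z ∈ range N | z + M ≤ N ∧ w (z + Q) ≠ w (z + (Q + p))} with hS
  have hMpos : (0 : ℝ) < (M : ℝ) := by exact_mod_cast (by omega : 0 < M)
  obtain ⟨r, hr, hrc⟩ := Finset.exists_le_card_fiber_of_nsmul_le_card_of_maps_to
    (s := S) (t := range M) (f := fun z => z % M) (b := (S.card : ℝ) / M)
    (fun z _ => mem_range.2 (Nat.mod_lt _ (by omega))) ⟨0, mem_range.2 (by omega)⟩
    (by rw [card_range, nsmul_eq_mul, mul_div_cancel₀ _ hMpos.ne'])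
  set Z : Finset ℕ := {z ∈ S | z % M = r} with hZ
  have hK : 9 * y ≤ (Z.card : ℝ) := by
    refine le_trans ?_ hrc
    rw [le_div_iff₀ hMpos]
    linarith
  have hL := windows R w q0 M Z
    (fun z hz q => by
      rw [hZ, mem_filter, hS, mem_filter] at hz
      exact window_bad R w p hp z hz.1.2.2 q)
    (fun z hz z' hz' hlt => by
      rw [hZ, mem_filter] at hz hz'
      have h1 : z % M = z' % M := hz.2.trans hz'.2.symm
      have h2 : M ∣ z' - z := (Nat.modEq_iff_dvd' hlt.le).1 h1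
      have h3 := Nat.le_of_dvd (by omega) h2
      omega) N
    (fun z hz => by
      rw [hZ, mem_filter, hS, mem_filter] at hz
      exact hz.1.2.1)
  have hZ0 : (0 : ℝ) ≤ (Z.card : ℝ) := Nat.cast_nonneg _
  have h5 : {s : Fin Q × ℕ | (s.2 : ℝ) < y} ⊆ {s : Fin Q × ℕ | (s.2 : ℝ) < (Z.card : ℝ) / 4} := by
    intro s hs
    have hs' : (s.2 : ℝ) < y := hs
    show (s.2 : ℝ) < (Z.card : ℝ) / 4
    have h6 : (0 : ℝ) ≤ (s.2 : ℝ) := Nat.cast_nonneg _
    linarith
  calc (run R w q0 N).toOuterMeasure {s | (s.2 : ℝ) < y}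
      ≤ (run R w q0 N).toOuterMeasure {s | (s.2 : ℝ) < (Z.card : ℝ) / 4} :=
        MeasureTheory.measure_mono h5
    _ ≤ ENNReal.ofReal ((2 : ℝ) ^ ((Z.card : ℝ) / 4) * (LL R w q0 N).toReal) := tail R w q0 N _
    _ ≤ ENNReal.ofReal ((2 : ℝ) ^ ((Z.card : ℝ) / 4) * (3 / 4 : ℝ) ^ Z.card) := by
        refine ENNReal.ofReal_le_ofReal ?_
        gcongr
    _ ≤ ENNReal.ofReal (Real.exp (-(Z.card : ℝ) / 9)) := ENNReal.ofReal_le_ofReal (exp_bound _)
    _ ≤ _ := by
        refine ENNReal.ofReal_le_ofReal (Real.exp_le_exp.2 ?_)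
        linarith

open Classical in
/-- the same with the failures of `D k = D (k + p)` for `1 ≤ k ≤ N`, where `w i = D (i + 1)` -/
theorem errors_of_relation {β : Type} (R : Predictor Q α) (w : ℕ → α) (D : ℕ → β)
    (hD : ∀ i j, w i = w j → D (i + 1) = D (j + 1)) (p : ℕ)
    (hp : ∀ δ, 1 ≤ δ → δ ≤ Q → δ ∣ p) (q0 : Fin Q) (N : ℕ) (y : ℝ)
    (hy : 9 * ((Q + p + 1 : ℕ) : ℝ) * y + (Q + p : ℕ) ≤
      ((#{k ∈ Icc 1 N | D k ≠ D (k + p)} : ℕ) : ℝ)) :
    (run R w q0 N).toOuterMeasure {s | (s.2 : ℝ) < y} ≤ ENNReal.ofReal (Real.exp (-y)) := by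
  refine errors R w p hp q0 N y ?_
  have h1 : #{k ∈ Icc 1 N | D k ≠ D (k + p)} ≤
      #{z ∈ range N | z + (Q + p + 1) ≤ N ∧ w (z + Q) ≠ w (z + (Q + p))} + (Q + p) := by
    have h2 : {k ∈ Icc 1 N | D k ≠ D (k + p)} ⊆
        ({z ∈ range N | z + (Q + p + 1) ≤ N ∧ w (z + Q) ≠ w (z + (Q + p))}.image
          fun z => z + Q + 1) ∪ (Icc 1 Q ∪ Ioc (N - p) N) := by
      intro k hk
      rw [mem_filter, mem_Icc] at hk
      obtain ⟨⟨hk1, hk2⟩, hk3⟩ := hk
      by_cases h3 : k ≤ Q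
      · exact mem_union_right _ (mem_union_left _ (mem_Icc.2 ⟨hk1, h3⟩))
      by_cases h4 : N - p < k
      · exact mem_union_right _ (mem_union_right _ (mem_Ioc.2 ⟨h4, hk2⟩))
      refine mem_union_left _ (mem_image.2 ⟨k - Q - 1, ?_, by omega⟩)
      rw [mem_filter, mem_range]
      refine ⟨by omega, by omega, fun h5 => hk3 ?_⟩
      have h6 := hD _ _ h5
      rw [show k - Q - 1 + Q + 1 = k by omega, show k - Q - 1 + (Q + p) + 1 = k + p by omega] at h6
      exact h6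
    refine (card_le_card h2).trans ((card_union_le _ _).trans (Nat.add_le_add card_image_le
      ((card_union_le _ _).trans ?_)))
    rw [Nat.card_Icc, Nat.card_Ioc]
    omega
  have h7 : ((#{k ∈ Icc 1 N | D k ≠ D (k + p)} : ℕ) : ℝ) ≤
      ((#{z ∈ range N | z + (Q + p + 1) ≤ N ∧ w (z + Q) ≠ w (z + (Q + p))} : ℕ) : ℝ) +
        ((Q + p : ℕ) : ℝ) := by exact_mod_cast h1
  linarith

end Pool.Agent.U457.PA
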