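import Mathlib

set_option autoImplicit false

/-! # Probabilistic automata which predict a sequence: words which cost an error -/

namespace Pool.Agent.U457.PA

open Finset
open scoped ENNReal

/-- A probabilistic predictor with `Q` states for sequences with values in `α`. In the state `q` it
draws a prediction (an element of `α`) and a map which gives the next state for each value. -/
abbrev Predictor (Q : ℕ) (α : Type) : Type := Fin Q → PMF (α × (α → Fin Q))

/-- The law of the state and of the number of wrong predictions for `w 0, …, w (n - 1)`, for the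
predictor `R` with the initial state `q`. -/
noncomputable def run {Q : ℕ} {α : Type} [DecidableEq α] (R : Predictor Q α) (w : ℕ → α)
    (q : Fin Q) : ℕ → PMF (Fin Q × ℕ)
  | 0 => PMF.pure (q, 0)
  | n + 1 => (run R w q n).bind fun s => (R s.1).bind fun a =>
      PMF.pure (a.2 (w n), if a.1 = w n then s.2 else s.2 + 1)

lemma tsum_bind {α β : Type} (p : PMF α) (g : α → PMF β) (f : β → ℝ≥0∞) :
    ∑' b, (p.bind g) b * f b = ∑' a, p a * ∑' b, g a b * f b := by
  simp_rw [PMF.bind_apply, ← ENNReal.tsum_mul_right]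
  rw [ENNReal.tsum_comm]
  refine tsum_congr fun a => ?_
  simp_rw [mul_assoc, ENNReal.tsum_mul_left]

lemma tsum_pure {β : Type} (x : β) (f : β → ℝ≥0∞) : ∑' b, (PMF.pure x) b * f b = f x := by
  rw [tsum_eq_single x]
  · simp
  · intro b hb
    simp [hb]

variable {Q : ℕ} {α : Type} [DecidableEq α] (R : Predictor Q α)

/-- the mean of `2 ^ (-number of errors)` over the next `j` steps, for the values `u 0, u 1, …` -/
noncomputable def Phi : ℕ → (ℕ → α) → Fin Q → ℝ≥0∞
  | 0, _, _ => 1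
  | j + 1, u, q => ∑' a, R q a * ((if a.1 = u 0 then 1 else 2⁻¹) *
      Phi j (fun i => u (i + 1)) (a.2 (u 0)))

/-- the probability that the next `j` predictions are right, for the values `u 0, u 1, …` -/
noncomputable def Ok : ℕ → (ℕ → α) → Fin Q → ℝ≥0∞
  | 0, _, _ => 1
  | j + 1, u, q => ∑' a, R q a * (if a.1 = u 0 then
      Ok j (fun i => u (i + 1)) (a.2 (u 0)) else 0)

lemma mean_le (q : Fin Q) (f : α × (α → Fin Q) → ℝ≥0∞) (c : ℝ≥0∞) (h : ∀ a, f a ≤ c) :
    ∑' a, R q a * f a ≤ c := by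
  calc ∑' a, R q a * f a ≤ ∑' a, R q a * c := ENNReal.tsum_le_tsum fun a => by gcongr; exact h a
    _ = c := by rw [ENNReal.tsum_mul_right, (R q).tsum_coe, one_mul]

lemma Phi_le_one : ∀ (j : ℕ) (u : ℕ → α) (q : Fin Q), Phi R j u q ≤ 1
  | 0, _, _ => le_rfl
  | j + 1, u, q => by
      rw [Phi]
      refine mean_le R q _ 1 fun a => mul_le_one' ?_ (Phi_le_one j _ _)
      split_ifs
      · exact le_rfl
      · exact ENNReal.inv_le_one.2 one_le_two

lemma Ok_le_one : ∀ (j : ℕ) (u : ℕ → α) (q : Fin Q), Ok R j u q ≤ 1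
  | 0, _, _ => le_rfl
  | j + 1, u, q => by
      rw [Ok]
      refine mean_le R q _ 1 fun a => ?_
      split_ifs
      · exact Ok_le_one j _ _
      · exact zero_le

lemma Ok_succ_le : ∀ (j : ℕ) (u : ℕ → α) (q : Fin Q), Ok R (j + 1) u q ≤ Ok R j u q
  | 0, u, q => Ok_le_one R 1 u q
  | j + 1, u, q => by
      rw [Ok, Ok]
      refine ENNReal.tsum_le_tsum fun a => ?_
      gcongr
      split_ifs
      · exact Ok_succ_le j _ _
      · exact le_rfl

lemma Ok_anti (u : ℕ → α) (q : Fin Q) {i j : ℕ} (h : i ≤ j) : Ok R j u q ≤ Ok R i u q := by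
  induction h with
  | refl => exact le_rfl
  | step _ ih => exact (Ok_succ_le R _ u q).trans ih

lemma Ok_two : ∀ (j : ℕ) (u u' : ℕ → α) (q : Fin Q), (∃ i < j, u i ≠ u' i) →
    Ok R j u q + Ok R j u' q ≤ 1
  | 0, _, _, _, h => by obtain ⟨i, hi, -⟩ := h; omega
  | j + 1, u, u', q, h => by
      rw [Ok, Ok, ← ENNReal.tsum_add]
      simp_rw [← mul_add]
      refine mean_le R q _ 1 fun a => ?_
      by_cases h0 : u 0 = u' 0
      · rw [← h0]
        split_ifs with h1
        · refine Ok_two j _ _ _ ?_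
          obtain ⟨i, hi, hne⟩ := h
          match i, hi, hne with
          | 0, _, hne => exact absurd h0 hne
          | i + 1, hi, hne => exact ⟨i, by omega, hne⟩
        · simp
      · by_cases h1 : a.1 = u 0
        · have h2 : a.1 ≠ u' 0 := fun h => h0 (h1.symm.trans h)
          rw [if_pos h1, if_neg h2, add_zero]
          exact Ok_le_one R _ _ _
        · rw [if_neg h1, zero_add]
          split_ifs
          · exact Ok_le_one R _ _ _
          · exact zero_le

lemma Ok_step (j : ℕ) (u : ℕ → α) (q : Fin Q) (c : ℝ≥0∞) (h : c < Ok R (j + 1) u q) :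
    ∃ q', c < Ok R j (fun i => u (i + 1)) q' := by
  by_contra hcon
  push Not at hcon
  refine absurd h (not_lt.2 ?_)
  rw [Ok]
  refine mean_le R q _ c fun a => ?_
  split_ifs
  · exact hcon _
  · exact zero_le

lemma Ok_steps : ∀ (t j : ℕ) (u : ℕ → α) (q : Fin Q) (c : ℝ≥0∞), c < Ok R (t + j) u q →
    ∃ q', c < Ok R j (fun i => u (t + i)) q'
  | 0, j, u, q, c, h => ⟨q, by simpa using h⟩
  | t + 1, j, u, q, c, h => by
      rw [show t + 1 + j = t + j + 1 by omega] at h
      obtain ⟨q1, h1⟩ := Ok_step R (t + j) u q c h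
      obtain ⟨q2, h2⟩ := Ok_steps t j _ q1 c h1
      refine ⟨q2, ?_⟩
      have : (fun i => u (t + 1 + i)) = fun i => u (t + i + 1) := by
        funext i
        congr 1
        omega
      rw [this]
      exact h2

/-- A word which has no period after a short preperiod costs an error with probability one half. -/
lemma Ok_window (M : ℕ) (u : ℕ → α)
    (hu : ∀ t t', t < t' → t' ≤ Q → ∃ i, t' + i < M ∧ u (t + i) ≠ u (t' + i)) (q : Fin Q) :
    Ok R M u q ≤ 2⁻¹ := by
  by_contra hcon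
  push Not at hcon
  have hQ : 0 < Q := q.pos
  have hQM : Q < M := by
    obtain ⟨i, hi, -⟩ := hu 0 Q hQ le_rfl
    omega
  have h1 : ∀ t : Fin (Q + 1), ∃ q', 2⁻¹ < Ok R (M - t) (fun i => u (t + i)) q' := by
    intro t
    refine Ok_steps R t (M - t) u q _ ?_
    rw [show (t : ℕ) + (M - t) = M by omega]
    exact hcon
  choose f hf using h1
  obtain ⟨t, t', hne, heq⟩ := Fintype.exists_ne_map_eq_of_card_lt f (by simp)
  have key : ∀ t t' : Fin (Q + 1), t < t' → f t = f t' → False := by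
    intro t t' hlt heq
    obtain ⟨i, hi, hne⟩ := hu t t' hlt (by omega)
    have h2 := Ok_two R (M - t') (fun i => u (t + i)) (fun i => u (t' + i)) (f t)
      ⟨i, by omega, hne⟩
    have h3 : 2⁻¹ < Ok R (M - t') (fun i => u (t + i)) (f t) :=
      (hf t).trans_le (Ok_anti R _ _ (by have : (t : ℕ) < t' := hlt; omega))
    have h4 : 2⁻¹ < Ok R (M - t') (fun i => u (t' + i)) (f t) := by
      rw [heq]
      exact hf t'
    have h5 := ENNReal.add_lt_add h3 h4
    rw [ENNReal.inv_two_add_inv_two] at h5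
    exact absurd h5 (not_lt.2 h2)
  rcases lt_or_gt_of_ne hne with h | h
  · exact key t t' h heq
  · exact key t' t h heq.symm

lemma Phi_Ok : ∀ (j : ℕ) (u : ℕ → α) (q : Fin Q), 2 * Phi R j u q ≤ 1 + Ok R j u q
  | 0, u, q => by rw [Phi, Ok]; norm_num
  | j + 1, u, q => by
      rw [Phi, Ok, ← ENNReal.tsum_mul_left]
      have h1 : (1 : ℝ≥0∞) = ∑' a, R q a * 1 := by simp_rw [mul_one]; exact (R q).tsum_coe.symm
      calc ∑' a, 2 * (R q a * ((if a.1 = u 0 then 1 else 2⁻¹) *
            Phi R j (fun i => u (i + 1)) (a.2 (u 0))))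
          ≤ ∑' a, (R q a * 1 + R q a * (if a.1 = u 0 then
              Ok R j (fun i => u (i + 1)) (a.2 (u 0)) else 0)) := by
            refine ENNReal.tsum_le_tsum fun a => ?_
            rw [← mul_add, mul_left_comm]
            gcongr
            split_ifs
            · rw [one_mul]
              exact Phi_Ok j _ _
            · rw [← mul_assoc, ENNReal.mul_inv_cancel two_ne_zero ENNReal.ofNat_ne_top, one_mul,
                add_zero]
              exact Phi_le_one R _ _ _
        _ = _ := by rw [ENNReal.tsum_add, ← h1]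

variable (w : ℕ → α)

lemma markov (q0 : Fin Q) : ∀ (j n : ℕ),
    ∑' s, run R w q0 (n + j) s * (2⁻¹ : ℝ≥0∞) ^ s.2 =
      ∑' s, run R w q0 n s * ((2⁻¹ : ℝ≥0∞) ^ s.2 * Phi R j (fun i => w (n + i)) s.1)
  | 0, n => by simp [Phi]
  | j + 1, n => by
      have h := markov q0 j (n + 1)
      rw [show n + (j + 1) = n + 1 + j by omega, h, run, tsum_bind]
      refine tsum_congr fun s => ?_
      congr 1
      rw [tsum_bind, Phi, ← ENNReal.tsum_mul_left]
      refine tsum_congr fun a => ?_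
      have h2 : (fun i => w (n + 1 + i)) = fun i => w (n + (i + 1)) := by
        funext i
        congr 1
        omega
      rw [tsum_pure, h2, add_zero]
      by_cases h1 : a.1 = w n
      · simp only [h1, if_true]
        ring
      · simp only [h1, if_false, pow_succ]
        ring

/-- the mean of `2 ^ (-number of errors)` -/
noncomputable def LL (q0 : Fin Q) (n : ℕ) : ℝ≥0∞ := ∑' s, run R w q0 n s * (2⁻¹ : ℝ≥0∞) ^ s.2

lemma LL_le_one (q0 : Fin Q) (n : ℕ) : LL R w q0 n ≤ 1 := by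
  unfold LL
  calc ∑' s, run R w q0 n s * (2⁻¹ : ℝ≥0∞) ^ s.2 ≤ ∑' s, run R w q0 n s := by
        refine ENNReal.tsum_le_tsum fun s => mul_le_of_le_one_right zero_le ?_
        exact pow_le_one' (ENNReal.inv_le_one.2 one_le_two) _
    _ = 1 := (run R w q0 n).tsum_coe

lemma LL_mono (q0 : Fin Q) (n j : ℕ) : LL R w q0 (n + j) ≤ LL R w q0 n := by
  unfold LL
  rw [markov]
  refine ENNReal.tsum_le_tsum fun s => ?_
  gcongr
  exact mul_le_of_le_one_right zero_le (Phi_le_one R j _ s.1)

lemma LL_bad (q0 : Fin Q) (n j : ℕ) (h : ∀ q, Ok R j (fun i => w (n + i)) q ≤ 2⁻¹) :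
    4 * LL R w q0 (n + j) ≤ 3 * LL R w q0 n := by
  unfold LL
  rw [markov, ← ENNReal.tsum_mul_left, ← ENNReal.tsum_mul_left]
  refine ENNReal.tsum_le_tsum fun s => ?_
  have h1 : 4 * Phi R j (fun i => w (n + i)) s.1 ≤ 3 := by
    calc 4 * Phi R j (fun i => w (n + i)) s.1
        = 2 * (2 * Phi R j (fun i => w (n + i)) s.1) := by ring
      _ ≤ 2 * (1 + 2⁻¹) := by
          gcongr
          exact (Phi_Ok R j _ s.1).trans (by gcongr; exact h s.1)
      _ = 3 := by
          rw [mul_add, mul_one, ENNReal.mul_inv_cancel two_ne_zero ENNReal.ofNat_ne_top]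
          norm_num
  calc 4 * (run R w q0 n s * ((2⁻¹ : ℝ≥0∞) ^ s.2 * Phi R j (fun i => w (n + i)) s.1))
      = run R w q0 n s * (2⁻¹ : ℝ≥0∞) ^ s.2 * (4 * Phi R j (fun i => w (n + i)) s.1) := by ring
    _ ≤ run R w q0 n s * (2⁻¹ : ℝ≥0∞) ^ s.2 * 3 := by gcongr
    _ = _ := by ring

lemma real_mono (q0 : Fin Q) {n m : ℕ} (h : n ≤ m) :
    (LL R w q0 m).toReal ≤ (LL R w q0 n).toReal := by
  obtain ⟨j, rfl⟩ := Nat.exists_eq_add_of_le h
  exact ENNReal.toReal_mono (ne_top_of_le_ne_top ENNReal.one_ne_top (LL_le_one R w q0 n))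
    (LL_mono R w q0 n j)

lemma real_bad (q0 : Fin Q) (n j : ℕ) (h : ∀ q, Ok R j (fun i => w (n + i)) q ≤ 2⁻¹) :
    (LL R w q0 (n + j)).toReal ≤ 3 / 4 * (LL R w q0 n).toReal := by
  have h1 := LL_bad R w q0 n j h
  have ht : ∀ m, LL R w q0 m ≠ ⊤ := fun m =>
    ne_top_of_le_ne_top ENNReal.one_ne_top (LL_le_one R w q0 m)
  have h2 := ENNReal.toReal_mono (ENNReal.mul_ne_top (by norm_num) (ht n)) h1
  rw [ENNReal.toReal_mul, ENNReal.toReal_mul] at h2
  norm_num at h2
  linarith

/-- Separated words, each of which costs an error with probability one half from every state. -/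
lemma windows (q0 : Fin Q) (M : ℕ) (Z : Finset ℕ) :
    (∀ z ∈ Z, ∀ q, Ok R M (fun i => w (z + i)) q ≤ 2⁻¹) →
    (∀ z ∈ Z, ∀ z' ∈ Z, z < z' → z + M ≤ z') → ∀ N, (∀ z ∈ Z, z + M ≤ N) →
    (LL R w q0 N).toReal ≤ (3 / 4 : ℝ) ^ Z.card := by
  induction Z using Finset.induction_on_max with
  | empty =>
    intro _ _ N _
    rw [card_empty, pow_zero]
    exact (ENNReal.toReal_mono ENNReal.one_ne_top (LL_le_one R w q0 N)).trans (by simp)
  | insert a s hs ih =>
    intro h1 h2 N h3
    have ha : a ∉ s := fun h => lt_irrefl _ (hs a h)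
    have h4 := ih (fun z hz => h1 z (mem_insert_of_mem hz))
      (fun z hz z' hz' => h2 z (mem_insert_of_mem hz) z' (mem_insert_of_mem hz')) a
      (fun z hz => h2 z (mem_insert_of_mem hz) a (mem_insert_self _ _) (hs z hz))
    have h5 := real_bad R w q0 a M (h1 a (mem_insert_self _ _))
    have h6 := real_mono R w q0 (h3 a (mem_insert_self _ _))
    rw [card_insert_of_notMem ha, pow_succ']
    linarith

/-- Markov's inequality -/
lemma tail (q0 : Fin Q) (n : ℕ) (t : ℝ) :
    (run R w q0 n).toOuterMeasure {s | (s.2 : ℝ) < t} ≤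
      ENNReal.ofReal ((2 : ℝ) ^ t * (LL R w q0 n).toReal) := by
  have ht : LL R w q0 n ≠ ⊤ := ne_top_of_le_ne_top ENNReal.one_ne_top (LL_le_one R w q0 n)
  rw [ENNReal.ofReal_mul (by positivity), ENNReal.ofReal_toReal ht, PMF.toOuterMeasure_apply, LL,
    ← ENNReal.tsum_mul_left]
  refine ENNReal.tsum_le_tsum fun s => ?_
  by_cases hs : s ∈ {s : Fin Q × ℕ | (s.2 : ℝ) < t}
  · rw [Set.indicator_of_mem hs]
    have hs' : (s.2 : ℝ) < t := hs
    have h1 : (1 : ℝ≥0∞) ≤ ENNReal.ofReal ((2 : ℝ) ^ t) * (2⁻¹ : ℝ≥0∞) ^ s.2 := by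
      have h2 : (2 : ℝ≥0∞) ^ s.2 ≤ ENNReal.ofReal ((2 : ℝ) ^ t) := by
        have h3 : (2 : ℝ≥0∞) ^ s.2 = ENNReal.ofReal ((2 : ℝ) ^ s.2) := by
          rw [ENNReal.ofReal_pow (by norm_num)]
          simp
        rw [h3]
        refine ENNReal.ofReal_le_ofReal ?_
        rw [← Real.rpow_natCast]
        exact Real.rpow_le_rpow_of_exponent_le (by norm_num) hs'.le
      calc (1 : ℝ≥0∞) = (2 : ℝ≥0∞) ^ s.2 * (2⁻¹ : ℝ≥0∞) ^ s.2 := by
            rw [← mul_pow, ENNReal.mul_inv_cancel two_ne_zero ENNReal.ofNat_ne_top, one_pow]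
        _ ≤ _ := by gcongr
    calc run R w q0 n s = run R w q0 n s * 1 := (mul_one _).symm
      _ ≤ run R w q0 n s * (ENNReal.ofReal ((2 : ℝ) ^ t) * (2⁻¹ : ℝ≥0∞) ^ s.2) := by gcongr
      _ = _ := by ring
  · rw [Set.indicator_of_notMem hs]
    exact zero_le

lemma exp_bound (K : ℕ) : (2 : ℝ) ^ ((K : ℝ) / 4) * (3 / 4 : ℝ) ^ K ≤ Real.exp (-(K : ℝ) / 9) := by
  have h1 : (2 : ℝ) ^ ((K : ℝ) / 4) = Real.exp (Real.log 2 * (K / 4)) := by
    rw [Real.rpow_def_of_pos (by norm_num)]
  have h2 : (3 / 4 : ℝ) ^ K ≤ Real.exp (-(287 / 1000) * K) := by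
    have h3 : (3 / 4 : ℝ) ≤ Real.exp (-(287 / 1000)) := by
      have h5 : Real.exp (287 / 1000) ≤ 4 / 3 := by
        have h4 := Real.exp_bound' (x := 287 / 1000) (by norm_num) (by norm_num) (n := 5)
          (by norm_num)
        refine h4.trans ?_
        norm_num [Finset.sum_range_succ, Nat.factorial]
      rw [Real.exp_neg, le_inv_comm₀ (by norm_num) (Real.exp_pos _)]
      norm_num
      linarith
    calc (3 / 4 : ℝ) ^ K ≤ (Real.exp (-(287 / 1000))) ^ K :=
          pow_le_pow_left₀ (by norm_num) h3 K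
      _ = Real.exp (-(287 / 1000) * K) := by rw [← Real.exp_nat_mul]; ring_nf
  rw [h1]
  calc Real.exp (Real.log 2 * (K / 4)) * (3 / 4 : ℝ) ^ K
      ≤ Real.exp (Real.log 2 * (K / 4)) * Real.exp (-(287 / 1000) * K) := by gcongr
    _ = Real.exp (Real.log 2 * (K / 4) + -(287 / 1000) * K) := by rw [Real.exp_add]
    _ ≤ Real.exp (-(K : ℝ) / 9) := by
        refine Real.exp_le_exp.2 ?_
        have h6 := Real.log_two_lt_d9
        have h7 : (0 : ℝ) ≤ K := Nat.cast_nonneg _
        nlinarith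

end Pool.Agent.U457.PA
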